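import Mathlib

/-!
# MP_ba14eb_lc : a complete relational theory, axiomatized by `∃_2` sentences, with an unbounded type

Interface. The language: binary symbols `E 0 ⊇ E 1 ⊇ ...` (nested equivalence relations), a unary
symbol `Q` and unary symbols `U c` (names). The standard model `M_0` is the disjoint union of all
finite structures with nested equivalence relations and `Q` (each one infinitely often, each one is a
class of `E 0`), every point of which is named by some `U c`. The axioms: nested equivalence relations;
`U c` names one point; the diagram of the names; the class of `E 0` of a named point consists of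
named points (a finite disjunction). These are `∀_1` and `∃_1` sentences. They are complete:
every additional class of `E 0` looks (for a given quantifier rank, and finitely many `E i`) like a
finite one. The additional classes can be as complicated as one likes.

Table of pieces: `h520_pieces_bu (piece, title, status, seat, at, note)`. Everything below marked
`S_XXX` is a piece; put your proof in `Pool/Agent/Run7/<you>/BU/XXX.lean` as `theorem xxx : S_XXX`.
-/

set_option autoImplicit false

namespace Run7.h520.BU
open FirstOrder FirstOrder.Language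

/-! ## The answer -/

/-- `Lv true n φ`: `φ` is an `∃_n` formula; `Lv false n φ`: `φ` is a `∀_n` formula. -/
inductive Lv {L : FirstOrder.Language.{0, 0}} {α : Type} :
    Bool → ℕ → ∀ {k : ℕ}, L.BoundedFormula α k → Prop
  | qf {b : Bool} {n k : ℕ} {φ : L.BoundedFormula α k} (h : φ.IsQF) : Lv b n φ
  | up {b : Bool} {n k : ℕ} {φ : L.BoundedFormula α k} (h : Lv (!b) n φ) : Lv b (n + 1) φ
  | ex {n k : ℕ} {φ : L.BoundedFormula α (k + 1)} (h : Lv true (n + 1) φ) : Lv true (n + 1) φ.ex
  | all {n k : ℕ} {φ : L.BoundedFormula α (k + 1)} (h : Lv false (n + 1) φ) :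
      Lv false (n + 1) φ.all

/-- `T` is axiomatized by a set of `∃_n` (`b = true`) or `∀_n` (`b = false`) sentences. -/
def Axz {L : FirstOrder.Language.{0, 0}} (b : Bool) (n : ℕ) (T : L.Theory) : Prop :=
  ∃ S : L.Theory, (∀ φ ∈ S, Lv b n φ) ∧ ∀ φ : L.Sentence, S ⊨ᵇ φ ↔ T ⊨ᵇ φ

/-- The answer. -/
def Answer : Prop :=
  ∃ (L : FirstOrder.Language.{0, 0}) (T : L.Theory), L.IsRelational ∧ L.card ≤ Cardinal.aleph0 ∧
    T.IsComplete ∧ Axz true 2 T ∧
    ∃ (m : ℕ) (p : T.CompleteType (Fin m)), ∀ n : ℕ, ¬ Axz false n (p : L[[Fin m]].Theory)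

/-! ## The language and the models -/

/-- The named points: `((r, δ), t)`, `δ` a finite set of labelled lists, `t ∈ δ`. -/
def Pt0 : Type := {x : (ℕ × Finset (List ℕ × Bool)) × (List ℕ × Bool) // x.2 ∈ x.1.2}

/-- The equivalence relations on the named points. -/
def E0 (i : ℕ) (c d : Pt0) : Prop := c.1.1 = d.1.1 ∧ c.1.2.1.take i = d.1.2.1.take i

/-- The label on the named points. -/
def Q0 (c : Pt0) : Prop := c.1.2.2 = true

/-- The relation symbols. -/
inductive Rel : ℕ → Type
  | U : Pt0 → Rel 1
  | Q : Rel 1
  | E : ℕ → Rel 2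

/-- The language. -/
def LB : FirstOrder.Language.{0, 0} := ⟨fun _ => Empty, Rel⟩

/-- The data of a structure with names. -/
structure Fr (N : Type) where
  E : ℕ → N → N → Prop
  Q : N → Prop
  nm : Pt0 → N

/-- The axioms, semantically. -/
structure Fr.Ok {N : Type} (X : Fr N) : Prop where
  eqv : ∀ i, Equivalence (X.E i)
  nest : ∀ i x y, X.E (i + 1) x y → X.E i x y
  inj : Function.Injective X.nm
  hE : ∀ i c d, X.E i (X.nm c) (X.nm d) ↔ E0 i c d
  hQ : ∀ c, X.Q (X.nm c) ↔ Q0 c
  cl : ∀ c y, X.E 0 (X.nm c) y → ∃ d, y = X.nm d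

/-- The structure. -/
@[reducible] def Fr.str {N : Type} (X : Fr N) : LB.Structure N where
  funMap := fun {_} f => f.elim
  RelMap := fun {_} r => match r with
    | Rel.U c => fun v => v 0 = X.nm c
    | Rel.Q => fun v => X.Q (v 0)
    | Rel.E i => fun v => X.E i (v 0) (v 1)

/-- The standard frame. -/
def X0 : Fr Pt0 := ⟨E0, Q0, id⟩

/-- The axioms are `∀_1` and `∃_1` sentences: for all `i`: `E i` is reflexive, symmetric, transitive,
`E (i+1) x y → E i x y`; for all `c`: `∃ x, U c x`, `∀ x y, U c x → U c y → x = y`; for `c ≠ d`: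
`∀ x, ¬ (U c x ∧ U d x)`; for all `c, d, i`: `∀ x y, U c x → U d y → (¬) E i x y`;
`∀ x, U c x → (¬) Q x`; `∀ x y, U c x → E 0 x y → ⋁_d U d y` (the finitely many `d` of the component
of `c`). -/
def S_AX : Prop := ∃ Ax0 : LB.Theory, (∀ φ ∈ Ax0, Lv true 2 φ) ∧
  ∀ (N : Type) (s : LB.Structure N), @Theory.Model LB N s Ax0 ↔ ∃ X : Fr N, X.Ok ∧ s = X.str

/-- The language is countable and relational. -/
def S_CARD : Prop := LB.card ≤ Cardinal.aleph0 ∧ LB.IsRelational ∧ X0.Ok ∧ Nonempty Pt0

/-! ## Completeness: all the frames are elementarily equivalent -/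

/-- The levels `0, ..., H`: everything, `E 0`, ..., `E (H-2)`, equality. (`H ≥ 1`) -/
def Fr.F {N : Type} (X : Fr N) (H : ℕ) : ℕ → N → N → Prop
  | 0, _, _ => True
  | i + 1, x, y => if i + 1 < H then X.E i x y else x = y

/-- The types of depth `j`, with counting up to `n`. -/
def Ty (n : ℕ) : ℕ → Type
  | 0 => Prop
  | j + 1 => Set (Ty n j × Fin (n + 1))

/-- The type of the class of level `H - j` of `x`: a point has its label; a class of level `H - (j+1)`
has the set of all `(τ, k)` such that it contains at least `k` different classes of level `H - j` of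
type `τ`. -/
def Fr.ty {N : Type} (X : Fr N) (n H : ℕ) : (j : ℕ) → N → Ty n j
  | 0, x => X.Q x
  | j + 1, x => {p : Ty n j × Fin (n + 1) | ∃ y : Fin p.2 → N,
      (∀ a, X.F H (H - (j + 1)) x (y a)) ∧ (∀ a b, a ≠ b → ¬ X.F H (H - j) (y a) (y b)) ∧
      ∀ a, X.ty n H j (y a) = p.1}

/-- Easy facts: `Ty n j` is finite; `F` is a decreasing sequence of equivalence relations; the type of
depth `j` depends on the class of level `H - j` only. -/
def S_BAS : Prop := (∀ n j, Finite (Ty n j)) ∧
  ∀ (N : Type) (X : Fr N), X.Ok → ∀ H, 1 ≤ H → (∀ i, Equivalence (X.F H i)) ∧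
    (∀ i x y, X.F H (i + 1) x y → X.F H i x y) ∧
    (∀ x y, X.F H H x y ↔ x = y) ∧
    ∀ n j x y, j ≤ H → X.F H (H - j) x y → X.ty n H j x = X.ty n H j y

/-- The types of the named points are as in the standard frame, except for the type of the whole
structure (the classes of level `≥ 1` are contained in the component, which is closed). Induction
on `j`. -/
def S_LIFT : Prop := ∀ (N : Type) (X : Fr N), X.Ok → ∀ n H j, j < H → ∀ c : Pt0,
  X.ty n H j (X.nm c) = X0.ty n H j c

/-- Finite models. Proof. For `j ≤ H - 1` and every `x` there is a finite nonempty set `δ` of lists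
(of length `< H + 1`) with labels such that the type of depth `j` of `x` is the type of depth `j` of `δ`
(computed with `E i` replaced by agreement of the first `i - (H - 1 - j)` members). Induction on `j`:
for every `τ` such that a class of type `τ` is in the class of `x` choose such a `δ_τ`, enumerate the
finitely many `τ`'s, and take the union of the `(τ, a) :: δ_τ` (with `(τ, a)` coded as a number),
`a < k`, `k` the largest number `≤ n` such that there are at least `k` classes of type `τ` in
the class of `x`. Any other way of proving this is as good: for instance choose a finite subset of the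
component of `x` with the same types, and code it by lists. -/
def S_FMP : Prop := ∀ (N : Type) (X : Fr N), X.Ok → ∀ n H, 1 ≤ H → ∀ x : N,
  ∃ δ : Finset (List ℕ × Bool), ∀ r : ℕ, ∃ c : Pt0, c.1.1 = (r, δ) ∧
    X0.ty n H (H - 1) c = X.ty n H (H - 1) x

/-- The types of the whole structures are the same: `(τ, k)` is in the type iff `τ` is the type of a
component; there are infinitely many such components by `S_FMP` and `S_LIFT`. -/
def S_TOP : Prop := S_BAS → S_LIFT → S_FMP → ∀ (N N' : Type) (X : Fr N) (X' : Fr N'), X.Ok → X'.Ok →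
  ∀ n H, 1 ≤ H → ∀ (x : N) (x' : N'), X.ty n H H x = X'.ty n H H x'

/-- Positions of the game. -/
structure Pos {N N' : Type} (X : Fr N) (X' : Fr N') (n H : ℕ) {α : Type} (s : α → N) (s' : α → N') :
    Prop where
  rel : ∀ i a b, X.F H i (s a) (s b) ↔ X'.F H i (s' a) (s' b)
  ty : ∀ j ≤ H, ∀ a, X.ty n H j (s a) = X'.ty n H j (s' a)

/-- One step of the game. Proof. If `α` is empty take `i = 0`, and compare the whole structures.
Let `i` be the largest level such that `F i x (s a)` for some `a`. If `i = H`, `x = s a`, `x' = s' a`.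
Otherwise let `τ` be the type of the class `K'` of `x` of level `i + 1`. It is contained in the class
`K` of `s a` of level `i`, and no `s b` is in `K'`. Let `c` be the number of classes of level `i + 1`
and type `τ` in `K` containing some `s b`. `c ≤ card α < n`, so `(τ, c + 1)` is in the type of `K`,
hence in the type of the class of `s' a` of level `i`; so there is a class of level `i + 1` and type `τ`
in it which does not contain any `s' b`. In it find `x'` such that the classes of all levels
`> i` have the same types as those of `x` (go down one level at a time, with `(τ', 1)`, `n ≥ 1`). -/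
def S_STEP : Prop := ∀ (N N' : Type) (X : Fr N) (X' : Fr N'), X.Ok → X'.Ok →
  ∀ n H, 1 ≤ H → (∀ (x : N) (x' : N'), X.ty n H H x = X'.ty n H H x') →
  ∀ (α : Type) [Finite α] (s : α → N) (s' : α → N'), Nat.card α < n → Pos X X' n H s s' →
    ∀ x : N, ∃ x' : N', (∀ i a, X.F H i x (s a) ↔ X'.F H i x' (s' a)) ∧
      ∀ j ≤ H, X.ty n H j x = X'.ty n H j x'

/-- All the frames are elementarily equivalent. Proof. By induction on the formula `φ` with free
variables in `Fin k` there are `q`, `H₀` and a finite set `C₀` of names such that for all `H ≥ H₀`, all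
finite `C ⊇ C₀` and all `n ≥ card C + k + q`: if `s`, `s'` are tuples indexed by `C ⊕ Fin k`, with
`s c = X.nm c`, `s' c = X'.nm c`, and `Pos s s'`, then `φ` is true for `s` iff it is true for `s'`. -/
def S_EQ : Prop := S_BAS → S_LIFT → S_TOP → S_FMP → S_STEP →
  ∀ (N N' : Type) (X : Fr N) (X' : Fr N'), X.Ok → X'.Ok →
  ∀ φ : LB.Sentence, @Sentence.Realize LB N X.str φ ↔ @Sentence.Realize LB N' X'.str φ

/-! ## Unbounded types -/

/-- Paths in the trees: `false` is the type `A`, `true` is the type `B`. `A_{j+1}` has infinitely many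
children of type `B_j` and no others; `B_{j+1}` has infinitely many children of type `A_j` and
infinitely many of type `B_j`. `Good b s`: `s` is a path in a tree of type `b`. -/
def Good : Bool → List (Bool × ℕ) → Prop
  | _, [] => True
  | b, p :: s => (b = false → p.1 = true) ∧ Good p.1 s

/-- The type at the end of the path. -/
def lab : Bool → List (Bool × ℕ) → Bool
  | b, [] => b
  | _, p :: s => lab p.1 s

/-- The raw points: the named points; the point `a` (`none`); `some (i, k, s)`: the path `s` in the
`k`-th tree of height `i`. -/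
abbrev Raw : Type := Pt0 ⊕ Option (ℕ × ℕ × List (Bool × ℕ))

/-- The raw points which are points for `c : ℕ → Bool` (`c i` is the type of the trees of height `i`). -/
def Val (c : ℕ → Bool) : Raw → Prop
  | Sum.inl _ => True
  | Sum.inr none => True
  | Sum.inr (some (i, _, s)) => s.length = i ∧ Good (c i) s

/-- The points. -/
def Pt (c : ℕ → Bool) : Type := {x : Raw // Val c x}

/-- The code. -/
def cd : Option (ℕ × ℕ × List (Bool × ℕ)) → ℕ → Option (ℕ ⊕ Option (Bool × ℕ))
  | none, _ => none
  | some (i, k, s), l => if l < i then none else if l = i then some (Sum.inl k) else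
      some (Sum.inr (s[l - i - 1]?))

/-- The equivalence relations. -/
def ER (m : ℕ) : Raw → Raw → Prop
  | Sum.inl c, Sum.inl d => E0 m c d
  | Sum.inr z, Sum.inr w => ∀ l < m, cd z l = cd w l
  | _, _ => False

/-- The label. -/
def QR (c : ℕ → Bool) : Raw → Prop
  | Sum.inl d => Q0 d
  | Sum.inr none => False
  | Sum.inr (some (i, _, s)) => lab (c i) s = true

/-- The frame: the standard one and one more component. -/
def XN (c : ℕ → Bool) : Fr (Pt c) where
  E := fun m x y => ER m x.1 y.1
  Q := fun x => QR c x.1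
  nm := fun d => ⟨Sum.inl d, trivial⟩

/-- The point `a`. -/
def pa (c : ℕ → Bool) : Pt c := ⟨Sum.inr none, trivial⟩

/-- The frame is a model. -/
def S_NOK : Prop := ∀ c : ℕ → Bool, (XN c).Ok

/-- The point `a` knows `c`. The formulas: `β_0 (l, y) = Q y`, `β_{j+1} (l, y) = ∃ z, E l y z ∧
¬ β_j (l+1, z)`: for a point `y` of a tree of height `m`, a node of height `j` on its path is of type
`B` iff `β_j (m + 1 + (m - j), y)`. `χ_m (x) = ∃ y, E m x y ∧ ¬ E (m+1) x y ∧ β_m (m+1, y)`. -/
def S_DIST : Prop := ∃ χ : ℕ → LB.Formula (Fin 1), ∀ (c : ℕ → Bool) (m : ℕ),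
  @Formula.Realize LB (Pt c) (XN c).str (Fin 1) (χ m) (fun _ => pa c) ↔ c m = true

/-- General transfer of `∃_n` formulas by asymmetric back and forth. -/
def S_TRA : Prop := ∀ (L : FirstOrder.Language.{0, 0}) (α N N' : Type) [L.Structure N]
  [L.Structure N'] (v : α → N) (v' : α → N')
  (J : ℕ → ∀ k : ℕ, (Fin k → N) → (Fin k → N') → Prop)
  (K : ℕ → ∀ k : ℕ, (Fin k → N) → (Fin k → N') → Prop),
  (∀ n k s s', J n k s s' → ∀ φ : L.BoundedFormula α k, φ.IsQF → (φ.Realize v s ↔ φ.Realize v' s')) →
  (∀ n k s s', K n k s s' → ∀ φ : L.BoundedFormula α k, φ.IsQF → (φ.Realize v s ↔ φ.Realize v' s')) →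
  (∀ n k s s', J (n + 1) k s s' → K n k s s') → (∀ n k s s', K (n + 1) k s s' → J n k s s') →
  (∀ n k s s', J (n + 1) k s s' → ∀ x, ∃ x',
    J (n + 1) (k + 1) (Fin.snoc (α := fun _ => N) s x) (Fin.snoc (α := fun _ => N') s' x')) →
  (∀ n k s s', K (n + 1) k s s' → ∀ x', ∃ x,
    K (n + 1) (k + 1) (Fin.snoc (α := fun _ => N) s x) (Fin.snoc (α := fun _ => N') s' x')) →
  ∀ n k s s',
    (J n k s s' → ∀ φ : L.BoundedFormula α k, Lv true n φ → φ.Realize v s → φ.Realize v' s') ∧
    (J n k s s' → ∀ φ : L.BoundedFormula α k, Lv false n φ → φ.Realize v' s' → φ.Realize v s) ∧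
    (K n k s s' → ∀ φ : L.BoundedFormula α k, Lv true n φ → φ.Realize v' s' → φ.Realize v s) ∧
    (K n k s s' → ∀ φ : L.BoundedFormula α k, Lv false n φ → φ.Realize v s → φ.Realize v' s')

/-- Nodes of height `j` which may correspond in the `n`-th relation. -/
def Adm (n j : ℕ) (b b' : Bool) : Prop :=
  b = b' ∨ (b = false ∧ b' = true ∧ 1 ≤ j ∧ n ≤ j) ∨ (b = true ∧ b' = false ∧ n + 1 ≤ j)

/-- Corresponding points, for `c` and `c'` which differ at `m` only. -/
def Cor (c c' : ℕ → Bool) (m n : ℕ) : Raw → Raw → Prop
  | Sum.inl d, y => y = Sum.inl d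
  | Sum.inr none, y => y = Sum.inr none
  | Sum.inr (some (i, k, s)), y =>
      (i ≠ m ∧ y = Sum.inr (some (i, k, s))) ∨
      (i = m ∧ ∃ s' : List (Bool × ℕ), y = Sum.inr (some (i, k, s')) ∧ s'.length = m ∧
        ∀ l ≤ m, Adm n (m - l) (lab (c m) (s.take l)) (lab (c' m) (s'.take l)))

/-- Corresponding tuples. -/
def Cot (c c' : ℕ → Bool) (m n : ℕ) {α : Type} (s : α → Pt c) (s' : α → Pt c') : Prop :=
  (∀ a, Cor c c' m n (s a).1 (s' a).1) ∧
  ∀ i a b, ER i (s a).1 (s b).1 ↔ ER i (s' a).1 (s' b).1

/-- One step. Proof. If `x` is not in a tree of height `m`, `x' = x`. Let `x = some (m, k, u)`. Let `l` be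
the largest number such that some `s a = some (m, k, u₁)` has `u₁.take l = u.take l`
(`l = 0` if there is no such `a`). If `l = m` take `x' = s' a`. Otherwise, with `s' a = some (m, k, u₁')`,
`x' = some (m, k, u')`, where `u'` begins with `u₁'.take l` (a node of height `j = m - l`, whose type
`b'` corresponds to the type `b` of `u.take l`). The next member: if `b = b'`, or the next type in `u`
is `B`, the same type as in `u`; if `b = B`, `b' = A` (so `n + 1 ≤ j`) and the next type in
`u` is `A`, take `B` (admissible: `n ≤ j - 1`, and `1 ≤ n`); if `b = A`, `b' = B` the next type in `u` is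
`B`. Its number must be different from the numbers of all other `s' b` at this place; after this place
go on in the same way, with the same numbers as in `u`. -/
def S_FORTH : Prop := ∀ (c c' : ℕ → Bool) (m n : ℕ), 1 ≤ n → (∀ i, i ≠ m → c i = c' i) →
  Adm n m (c m) (c' m) → ∀ (α : Type) [Finite α] (s : α → Pt c) (s' : α → Pt c'), Cot c c' m n s s' →
    ∀ x : Pt c, ∃ x' : Pt c', Cor c c' m n x.1 x'.1 ∧
      ∀ i a, ER i x.1 (s a).1 ↔ ER i x'.1 (s' a).1

/-- Types which differ at a large number only are the same for simple formulas. Proof: `S_TRA` with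
`v = v' = a`, `J n k s s'` := `n < m` and `Cot` for the tuple `(a, s)` and `(a, s')`, `K` the same for
the exchanged roles (`Adm n j b b'` implies `Adm (n-1) j b' b` for `n ≥ 1`). Quantifier free formulas:
`Cot` preserves `E i`, `U d`, `=` (`x = y` iff `E i x y` for all `i`, and in the named part by `Cor`),
and `Q` (height 0: `Adm` at `l = m` is equality of the labels). -/
def S_ASY : Prop := S_TRA → S_FORTH → ∀ (c : ℕ → Bool) (m n : ℕ), n < m →
  ∀ (b : Bool) (φ : LB.Formula (Fin 1)), Lv b n φ →
    (@Formula.Realize LB (Pt c) (XN c).str (Fin 1) φ (fun _ => pa c) ↔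
      @Formula.Realize LB (Pt (Function.update c m (!c m))) (XN (Function.update c m (!c m))).str
        (Fin 1) φ (fun _ => pa (Function.update c m (!c m))))

/-- Constants to variables. -/
def S_EQV : Prop := ∀ (L : FirstOrder.Language.{0, 0}) (b : Bool) (n m : ℕ)
  (ψ : L[[Fin m]].Sentence), Lv b n ψ → Lv b n ((Formula.equivSentence (L := L) (α := Fin m)).symm ψ)

/-- Assembly. Proof: `T` is the complete theory of the standard frame; it is axiomatized by `Ax0` by
`S_AX` and `S_EQ`; `p` is the type of `a` in `XN c`, `c` constant. If `S` is a set of `∀_n` sentences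
equivalent to `p` then the structure `(XN c', a)` with `c'` = `c` changed at `n + 1` satisfies `S`
(`S_ASY`, `S_EQV`), hence `p`, contrary to `S_DIST`. -/
def S_MAIN : Prop := S_AX → S_CARD → S_BAS → S_LIFT → S_FMP → S_TOP → S_STEP → S_EQ → S_NOK →
  S_DIST → S_TRA → S_FORTH → S_ASY → S_EQV → Answer

end Run7.h520.BU
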