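import Pool.Agent.Run7.h520.BU.I

/-! Piece AX. -/

set_option autoImplicit false

namespace Run7.h520.BU
open FirstOrder FirstOrder.Language

/-- variables -/
def vr {k : ℕ} (i : Fin k) : LB.Term (Empty ⊕ Fin k) := Term.var (Sum.inr i)

def fE {k : ℕ} (i : ℕ) (a b : Fin k) : LB.BoundedFormula Empty k :=
  Relations.boundedFormula₂ (Rel.E i : LB.Relations 2) (vr a) (vr b)

def fU {k : ℕ} (c : Pt0) (a : Fin k) : LB.BoundedFormula Empty k :=
  Relations.boundedFormula₁ (Rel.U c : LB.Relations 1) (vr a)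

def fQ {k : ℕ} (a : Fin k) : LB.BoundedFormula Empty k :=
  Relations.boundedFormula₁ (Rel.Q : LB.Relations 1) (vr a)

def fq {k : ℕ} (a b : Fin k) : LB.BoundedFormula Empty k := Term.bdEqual (vr a) (vr b)

/-- the members of the component of `c` -/
noncomputable def comp (c : Pt0) : List Pt0 :=
  c.1.1.2.attach.toList.map (fun t => ⟨(c.1.1, t.1), t.2⟩)

theorem mem_comp (c d : Pt0) : d ∈ comp c ↔ d.1.1 = c.1.1 := by
  unfold comp
  constructor
  · intro h
    obtain ⟨t, _, rfl⟩ := List.mem_map.1 h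
    rfl
  · intro h
    obtain ⟨⟨⟨r, δ⟩, t⟩, ht⟩ := d
    obtain ⟨⟨⟨r', δ'⟩, t'⟩, ht'⟩ := c
    cases h
    exact List.mem_map.2 ⟨⟨t, ht⟩, by simp, rfl⟩

/-- indices -/
inductive Idx : Type
  | a1 (i : ℕ) | a2 (i : ℕ) | a3 (i : ℕ) | a4 (i : ℕ) | a5 (c : Pt0) | a6 (c : Pt0)
  | a7 (c d : Pt0) (h : c ≠ d) | a8 (i : ℕ) (c d : Pt0) | a9 (c : Pt0) | a10 (c : Pt0)

open Classical in
/-- the axioms -/
noncomputable def sen : Idx → LB.Sentence
  | Idx.a1 i => (fE (k := 1) i 0 0).all
  | Idx.a2 i => ((fE (k := 2) i 0 1).imp (fE i 1 0)).all.all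
  | Idx.a3 i => ((fE (k := 3) i 0 1).imp ((fE i 1 2).imp (fE i 0 2))).all.all.all
  | Idx.a4 i => ((fE (k := 2) (i + 1) 0 1).imp (fE i 0 1)).all.all
  | Idx.a5 c => (fU (k := 1) c 0).ex
  | Idx.a6 c => ((fU (k := 2) c 0).imp ((fU c 1).imp (fq 0 1))).all.all
  | Idx.a7 c d _ => ((fU (k := 1) c 0).imp ((fU d 0).imp ⊥)).all
  | Idx.a8 i c d => ((fU (k := 2) c 0).imp ((fU d 1).imp
      (if E0 i c d then fE i 0 1 else (fE i 0 1).not))).all.all
  | Idx.a9 c => ((fU (k := 1) c 0).imp (if Q0 c then fQ 0 else (fQ 0).not)).all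
  | Idx.a10 c => ((fU (k := 2) c 0).imp ((fE 0 0 1).imp
      (List.foldr (fun d φ => (fU d 1) ⊔ φ) ⊥ (comp c)))).all.all

theorem qE {k : ℕ} (i : ℕ) (a b : Fin k) : (fE i a b).IsQF :=
  BoundedFormula.IsQF.of_isAtomic (BoundedFormula.IsAtomic.rel _ _)
theorem qU {k : ℕ} (c : Pt0) (a : Fin k) : (fU c a).IsQF :=
  BoundedFormula.IsQF.of_isAtomic (BoundedFormula.IsAtomic.rel _ _)
theorem qQ {k : ℕ} (a : Fin k) : (fQ a).IsQF :=
  BoundedFormula.IsQF.of_isAtomic (BoundedFormula.IsAtomic.rel _ _)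
theorem qq {k : ℕ} (a b : Fin k) : (fq a b).IsQF :=
  BoundedFormula.IsQF.of_isAtomic (BoundedFormula.IsAtomic.equal _ _)

theorem qfold {k : ℕ} (a : Fin k) (l : List Pt0) :
    (List.foldr (fun d φ => (fU d a) ⊔ φ) ⊥ l : LB.BoundedFormula Empty k).IsQF := by
  induction l with
  | nil => exact BoundedFormula.IsQF.falsum
  | cons d l ih => exact (qU d a).sup ih

theorem lv_sen (i : Idx) : Lv true 2 (sen i) := by
  have h1 : ∀ {φ : LB.BoundedFormula Empty 1}, φ.IsQF → Lv true 2 φ.all :=
    fun h => Lv.up (Lv.all (Lv.qf h))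
  have h2 : ∀ {φ : LB.BoundedFormula Empty 2}, φ.IsQF → Lv true 2 φ.all.all :=
    fun h => Lv.up (Lv.all (Lv.all (Lv.qf h)))
  have h3 : ∀ {φ : LB.BoundedFormula Empty 3}, φ.IsQF → Lv true 2 φ.all.all.all :=
    fun h => Lv.up (Lv.all (Lv.all (Lv.all (Lv.qf h))))
  cases i with
  | a1 i => exact h1 (qE _ _ _)
  | a2 i => exact h2 ((qE _ _ _).imp (qE _ _ _))
  | a3 i => exact h3 ((qE _ _ _).imp ((qE _ _ _).imp (qE _ _ _)))
  | a4 i => exact h2 ((qE _ _ _).imp (qE _ _ _))
  | a5 c => exact Lv.ex (Lv.qf (qU _ _))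
  | a6 c => exact h2 ((qU _ _).imp ((qU _ _).imp (qq _ _)))
  | a7 c d h => exact h1 ((qU _ _).imp ((qU _ _).imp BoundedFormula.IsQF.falsum))
  | a8 i c d =>
    refine h2 ((qU _ _).imp ((qU _ _).imp ?_))
    split_ifs
    · exact qE _ _ _
    · exact (qE _ _ _).not
  | a9 c =>
    refine h1 ((qU _ _).imp ?_)
    split_ifs
    · exact qQ _
    · exact (qQ _).not
  | a10 c => exact h2 ((qU _ _).imp ((qE _ _ _).imp (qfold _ _)))

section sem

variable {N : Type} [s : LB.Structure N]

/-- the relations -/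
def rE (N : Type) [LB.Structure N] (i : ℕ) (x y : N) : Prop :=
  @Structure.RelMap LB N _ 2 (Rel.E i) ![x, y]
def rU (N : Type) [LB.Structure N] (c : Pt0) (x : N) : Prop :=
  @Structure.RelMap LB N _ 1 (Rel.U c) ![x]
def rQ (N : Type) [LB.Structure N] (x : N) : Prop :=
  @Structure.RelMap LB N _ 1 Rel.Q ![x]

theorem realE {k : ℕ} (i : ℕ) (a b : Fin k) (v : Empty → N) (x : Fin k → N) :
    (fE i a b).Realize v x ↔ rE N i (x a) (x b) := by
  unfold fE rE
  rw [BoundedFormula.realize_rel₂]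
  rfl
theorem realU {k : ℕ} (c : Pt0) (a : Fin k) (v : Empty → N) (x : Fin k → N) :
    (fU c a).Realize v x ↔ rU N c (x a) := by
  unfold fU rU
  rw [BoundedFormula.realize_rel₁]
  rfl
theorem realQ {k : ℕ} (a : Fin k) (v : Empty → N) (x : Fin k → N) :
    (fQ a).Realize v x ↔ rQ N (x a) := by
  unfold fQ rQ
  rw [BoundedFormula.realize_rel₁]
  rfl
theorem realq {k : ℕ} (a b : Fin k) (v : Empty → N) (x : Fin k → N) :
    (fq a b).Realize v x ↔ x a = x b := by
  unfold fq
  rw [BoundedFormula.realize_bdEqual]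
  rfl

theorem realfold {k : ℕ} (a : Fin k) (l : List Pt0) (v : Empty → N) (x : Fin k → N) :
    (List.foldr (fun d φ => (fU d a) ⊔ φ) ⊥ l : LB.BoundedFormula Empty k).Realize v x ↔
      ∃ d ∈ l, rU N d (x a) := by
  induction l with
  | nil => simp
  | cons d l ih =>
    rw [List.foldr_cons, BoundedFormula.realize_sup, ih, realU]
    simp

theorem sn1 (x : N) : (Fin.snoc (α := fun _ => N) (default : Fin 0 → N) x : Fin 1 → N) 0 = x := rfl

theorem all1 {φ : LB.BoundedFormula Empty 1} :
    N ⊨ (φ.all : LB.Sentence) ↔ ∀ x : N, φ.Realize default ![x] := by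
  unfold Sentence.Realize Formula.Realize
  rw [BoundedFormula.realize_all]
  refine forall_congr' (fun x => ?_)
  have : (Fin.snoc (α := fun _ => N) (default : Fin 0 → N) x : Fin 1 → N) = ![x] := by
    funext i
    fin_cases i
    rfl
  rw [this]

theorem ex1 {φ : LB.BoundedFormula Empty 1} :
    N ⊨ (φ.ex : LB.Sentence) ↔ ∃ x : N, φ.Realize default ![x] := by
  unfold Sentence.Realize Formula.Realize
  rw [BoundedFormula.realize_ex]
  refine exists_congr (fun x => ?_)
  have : (Fin.snoc (α := fun _ => N) (default : Fin 0 → N) x : Fin 1 → N) = ![x] := by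
    funext i
    fin_cases i
    rfl
  rw [this]

theorem all2 {φ : LB.BoundedFormula Empty 2} :
    N ⊨ (φ.all.all : LB.Sentence) ↔ ∀ x y : N, φ.Realize default ![x, y] := by
  rw [all1]
  refine forall_congr' (fun x => ?_)
  rw [BoundedFormula.realize_all]
  refine forall_congr' (fun y => ?_)
  have : (Fin.snoc (α := fun _ => N) (![x] : Fin 1 → N) y : Fin 2 → N) = ![x, y] := by
    funext i
    fin_cases i <;> rfl
  rw [this]

theorem all3 {φ : LB.BoundedFormula Empty 3} :
    N ⊨ (φ.all.all.all : LB.Sentence) ↔ ∀ x y z : N, φ.Realize default ![x, y, z] := by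
  rw [all2]
  refine forall_congr' (fun x => forall_congr' (fun y => ?_))
  rw [BoundedFormula.realize_all]
  refine forall_congr' (fun z => ?_)
  have : (Fin.snoc (α := fun _ => N) (![x, y] : Fin 2 → N) z : Fin 3 → N) = ![x, y, z] := by
    funext i
    fin_cases i <;> rfl
  rw [this]

/-- the meaning of the axioms -/
def mean (N : Type) [LB.Structure N] : Idx → Prop
  | Idx.a1 i => ∀ x, rE N i x x
  | Idx.a2 i => ∀ x y, rE N i x y → rE N i y x
  | Idx.a3 i => ∀ x y z, rE N i x y → rE N i y z → rE N i x z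
  | Idx.a4 i => ∀ x y, rE N (i + 1) x y → rE N i x y
  | Idx.a5 c => ∃ x, rU N c x
  | Idx.a6 c => ∀ x y, rU N c x → rU N c y → x = y
  | Idx.a7 c d _ => ∀ x, rU N c x → rU N d x → False
  | Idx.a8 i c d => ∀ x y, rU N c x → rU N d y → (rE N i x y ↔ E0 i c d)
  | Idx.a9 c => ∀ x, rU N c x → (rQ N x ↔ Q0 c)
  | Idx.a10 c => ∀ x y, rU N c x → rE N 0 x y → ∃ d ∈ comp c, rU N d y

theorem mean_iff (i : Idx) : N ⊨ sen i ↔ mean N i := by
  cases i with
  | a1 i => rw [sen, all1]; simp only [realE]; rfl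
  | a2 i => rw [sen, all2]; simp only [BoundedFormula.realize_imp, realE]; rfl
  | a3 i => rw [sen, all3]; simp only [BoundedFormula.realize_imp, realE]; rfl
  | a4 i => rw [sen, all2]; simp only [BoundedFormula.realize_imp, realE]; rfl
  | a5 c => rw [sen, ex1]; simp only [realU]; rfl
  | a6 c => rw [sen, all2]; simp only [BoundedFormula.realize_imp, realU, realq]; rfl
  | a7 c d h =>
    rw [sen, all1]; simp only [BoundedFormula.realize_imp, realU, BoundedFormula.realize_bot]; rfl
  | a8 i c d =>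
    rw [sen, all2]; simp only [BoundedFormula.realize_imp, realU]
    refine forall_congr' (fun x => forall_congr' (fun y => imp_congr Iff.rfl (imp_congr Iff.rfl ?_)))
    split_ifs with h
    · rw [realE]; simp [h]
    · rw [BoundedFormula.realize_not, realE]; simp [h]
  | a9 c =>
    rw [sen, all1]; simp only [BoundedFormula.realize_imp, realU]
    refine forall_congr' (fun x => imp_congr Iff.rfl ?_)
    split_ifs with h
    · rw [realQ]; simp [h]
    · rw [BoundedFormula.realize_not, realQ]; simp [h]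
  | a10 c =>
    rw [sen, all2]; simp only [BoundedFormula.realize_imp, realU, realE, realfold]; rfl

end sem

theorem ax : S_AX := by
  refine ⟨Set.range sen, ?_, ?_⟩
  · rintro _ ⟨i, rfl⟩
    exact lv_sen i
  · intro N s
    have h0 : @Theory.Model LB N s (Set.range sen) ↔ ∀ i, mean N i := by
      constructor
      · intro h i
        exact (mean_iff i).1 (h.realize_of_mem _ ⟨i, rfl⟩)
      · intro h
        refine ⟨?_⟩
        rintro _ ⟨i, rfl⟩
        exact (mean_iff i).2 (h i)
    rw [h0]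
    constructor
    · intro h
      choose nm hnm using fun c => h (Idx.a5 c)
      have hU : ∀ c x, rU N c x ↔ x = nm c := fun c x =>
        ⟨fun hx => h (Idx.a6 c) _ _ hx (hnm c), fun hx => hx ▸ hnm c⟩
      let X : Fr N := ⟨rE N, rQ N, nm⟩
      refine ⟨X, ?_, ?_⟩
      · refine ⟨fun i => ⟨h (Idx.a1 i), fun {x y} => h (Idx.a2 i) x y,
          fun {x y z} => h (Idx.a3 i) x y z⟩, fun i => h (Idx.a4 i), ?_, ?_, ?_, ?_⟩
        · intro c d hcd
          by_contra hne
          exact h (Idx.a7 c d hne) (nm c) (hnm c) ((hU d _).2 hcd)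
        · intro i c d
          exact h (Idx.a8 i c d) _ _ (hnm c) (hnm d)
        · intro c
          exact h (Idx.a9 c) _ (hnm c)
        · intro c y hy
          obtain ⟨d, _, hd⟩ := h (Idx.a10 c) _ y (hnm c) hy
          exact ⟨d, (hU d y).1 hd⟩
      · refine Structure.ext (funext fun n => funext fun f => f.elim) ?_
        funext n r v
        cases r with
        | U c =>
          have : v = ![v 0] := by funext i; fin_cases i; rfl
          refine propext (Iff.trans ?_ (hU c (v 0)))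
          rw [this]; rfl
        | Q =>
          have : v = ![v 0] := by funext i; fin_cases i; rfl
          refine propext (Iff.trans ?_ (Iff.rfl : rQ N (v 0) ↔ _))
          rw [this]; rfl
        | E i =>
          have : v = ![v 0, v 1] := by funext i; fin_cases i <;> rfl
          refine propext (Iff.trans ?_ (Iff.rfl : rE N i (v 0) (v 1) ↔ _))
          rw [this]; rfl
    · rintro ⟨X, hX, rfl⟩ i
      cases i with
      | a1 i => exact fun x => (hX.eqv i).refl x
      | a2 i => exact fun x y => (hX.eqv i).symm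
      | a3 i => exact fun x y z => (hX.eqv i).trans
      | a4 i => exact hX.nest i
      | a5 c => exact ⟨X.nm c, rfl⟩
      | a6 c => exact fun x y hx hy => Eq.trans (b := X.nm c) hx (Eq.symm hy)
      | a7 c d h =>
        intro x hx hy
        exact h (hX.inj (Eq.trans (Eq.symm (hx : x = X.nm c)) (hy : x = X.nm d)))
      | a8 i c d =>
        intro x y hx hy
        obtain rfl : x = X.nm c := hx
        obtain rfl : y = X.nm d := hy
        exact hX.hE i c d
      | a9 c =>
        intro x hx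
        obtain rfl : x = X.nm c := hx
        exact hX.hQ c
      | a10 c =>
        intro x y hx hy
        obtain rfl : x = X.nm c := hx
        obtain ⟨d, rfl⟩ := hX.cl c y hy
        exact ⟨d, (mem_comp c d).2 ((hX.hE 0 c d).1 hy).1.symm, rfl⟩

end Run7.h520.BU
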