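import Pool.Agent.Run7.h520.BU.I

/-! Pieces CARD and NOK. -/

set_option autoImplicit false

namespace Run7.h520.BU
open FirstOrder FirstOrder.Language

instance : Countable Pt0 := by
  unfold Pt0
  infer_instance

theorem ok0 : X0.Ok where
  eqv := fun i => ⟨fun c => ⟨rfl, rfl⟩, fun h => ⟨h.1.symm, h.2.symm⟩,
    fun h h' => ⟨h.1.trans h'.1, h.2.trans h'.2⟩⟩
  nest := by
    intro i x y h
    refine ⟨h.1, ?_⟩
    have h2 : x.1.2.1.take (i + 1) = y.1.2.1.take (i + 1) := h.2
    have h3 := congrArg (List.take i) h2
    simpa [List.take_take] using h3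
  inj := fun _ _ h => h
  hE := fun _ _ _ => Iff.rfl
  hQ := fun _ => Iff.rfl
  cl := fun _ y _ => ⟨y, rfl⟩

theorem card : S_CARD := by
  refine ⟨?_, fun n => inferInstanceAs (IsEmpty Empty), ok0, ?_⟩
  · have h1 : Countable ((l : ℕ) × LB.Functions l) := by
      have : ∀ l, IsEmpty (LB.Functions l) := fun l => inferInstanceAs (IsEmpty Empty)
      infer_instance
    have h2 : Countable ((l : ℕ) × LB.Relations l) := by
      have : ∀ l, Countable (LB.Relations l) := by
        intro l
        have : Function.Injective (fun r : Rel l => match r with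
            | Rel.U c => (Sum.inl c : Pt0 ⊕ Option ℕ)
            | Rel.Q => Sum.inr none
            | Rel.E i => Sum.inr (some i)) := by
          intro r s h
          cases r <;> cases s <;> simp_all
        exact this.countable
      infer_instance
    have h3 : Countable LB.Symbols := by
      unfold Language.Symbols
      infer_instance
    exact Cardinal.mk_le_aleph0_iff.2 h3
  · exact ⟨⟨((0, {([], true)}), ([], true)), by simp⟩⟩

theorem er_eqv (i : ℕ) : Equivalence (ER i) := by
  refine ⟨?_, ?_, ?_⟩
  · rintro (c | z)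
    · exact ⟨rfl, rfl⟩
    · exact fun _ _ => rfl
  · rintro (c | z) (d | w) h
    · exact ⟨h.1.symm, h.2.symm⟩
    · exact h.elim
    · exact h.elim
    · exact fun l hl => (h l hl).symm
  · rintro (c | z) (d | w) (e | u) h h'
    · exact ⟨h.1.trans h'.1, h.2.trans h'.2⟩
    all_goals first
      | exact h.elim
      | exact h'.elim
      | exact fun l hl => (h l hl).trans (h' l hl)

theorem nok : S_NOK := by
  intro c
  refine ⟨fun i => ⟨fun x => (er_eqv i).refl _, fun h => (er_eqv i).symm h,
    fun h h' => (er_eqv i).trans h h'⟩, ?_, ?_, fun _ _ _ => Iff.rfl, fun _ => Iff.rfl, ?_⟩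
  · rintro i ⟨x, hx⟩ ⟨y, hy⟩ h
    change ER (i + 1) x y at h
    change ER i x y
    rcases x with x | x <;> rcases y with y | y
    · exact ok0.nest i x y h
    · exact h.elim
    · exact h.elim
    · exact fun l hl => h l (Nat.lt_succ_of_lt hl)
  · intro x y h
    have := congrArg Subtype.val h
    exact Sum.inl_injective this
  · rintro d ⟨x, hx⟩ h
    change ER 0 (Sum.inl d) x at h
    rcases x with x | x
    · exact ⟨x, rfl⟩
    · exact h.elim

end Run7.h520.BU
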