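import Pool.Agent.Run7.h520.BU.I

/-! Piece EQV. -/

set_option autoImplicit false

namespace Run7.h520.BU
open FirstOrder FirstOrder.Language

theorem isQF_map {L L' : FirstOrder.Language.{0, 0}} {α β : Type}
    (ft : ∀ n, L.Term (α ⊕ (Fin n)) → L'.Term (β ⊕ (Fin n)))
    (fr : ∀ n, L.Relations n → L'.Relations n) {k : ℕ} {φ : L.BoundedFormula α k}
    (h : φ.IsQF) : (φ.mapTermRel ft fr (fun _ => id)).IsQF := by
  induction h with
  | falsum => exact BoundedFormula.IsQF.falsum
  | of_isAtomic h =>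
    cases h with
    | equal t₁ t₂ => exact BoundedFormula.IsQF.of_isAtomic (BoundedFormula.IsAtomic.equal _ _)
    | rel R ts => exact BoundedFormula.IsQF.of_isAtomic (BoundedFormula.IsAtomic.rel _ _)
  | imp _ _ h1 h2 => exact BoundedFormula.IsQF.imp h1 h2

theorem lv_map {L L' : FirstOrder.Language.{0, 0}} {α β : Type}
    (ft : ∀ n, L.Term (α ⊕ (Fin n)) → L'.Term (β ⊕ (Fin n)))
    (fr : ∀ n, L.Relations n → L'.Relations n) {b : Bool} {n k : ℕ} {φ : L.BoundedFormula α k}
    (h : Lv b n φ) : Lv b n (φ.mapTermRel ft fr (fun _ => id)) := by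
  induction h with
  | qf h => exact Lv.qf (isQF_map ft fr h)
  | up _ ih => exact Lv.up ih
  | ex _ ih => exact Lv.ex ih
  | all _ ih => exact Lv.all ih

theorem eqv : S_EQV := by
  intro L b n m ψ h
  exact lv_map _ _ (lv_map _ _ h)

end Run7.h520.BU
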