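import Pool.Agent.Run7.h520.BU.I

/-! Piece LIFT. -/

set_option autoImplicit false

namespace Run7.h520.BU
open FirstOrder FirstOrder.Language

theorem F_named {N : Type} {X : Fr N} (hX : X.Ok) (H i : ℕ) (hi : 1 ≤ i) (c : Pt0) (y : N)
    (h : X.F H i (X.nm c) y) : ∃ d, y = X.nm d := by
  obtain ⟨i, rfl⟩ : ∃ k, i = k + 1 := ⟨i - 1, by omega⟩
  replace h : (if i + 1 < H then X.E i (X.nm c) y else X.nm c = y) := h
  split_ifs at h with h1
  · have : ∀ m, X.E m (X.nm c) y → X.E 0 (X.nm c) y := by
      intro m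
      induction m with
      | zero => exact id
      | succ m ih => exact fun h => ih (hX.nest m _ _ h)
    exact hX.cl c y (this i h)
  · exact ⟨c, h.symm⟩

theorem F_nm {N : Type} {X : Fr N} (hX : X.Ok) (H i : ℕ) (c d : Pt0) :
    X.F H i (X.nm c) (X.nm d) ↔ X0.F H i c d := by
  cases i with
  | zero => exact Iff.rfl
  | succ i =>
    show (if i + 1 < H then X.E i (X.nm c) (X.nm d) else X.nm c = X.nm d) ↔
      (if i + 1 < H then E0 i c d else c = d)
    split_ifs with h1
    · exact hX.hE i c d
    · exact ⟨fun h => hX.inj h, fun h => congrArg X.nm h⟩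

theorem lift : S_LIFT := by
  intro N X hX n H j
  induction j with
  | zero =>
    intro _ c
    exact propext (hX.hQ c)
  | succ j ih =>
    intro hj c
    have ih' := ih (by omega)
    refine Set.ext (fun p => ?_)
    constructor
    · rintro ⟨y, h1, h2, h3⟩
      choose z hz using fun a => F_named hX H (H - (j + 1)) (by omega) c (y a) (h1 a)
      obtain rfl : y = fun a => X.nm (z a) := funext hz
      exact ⟨z, fun a => (F_nm hX H _ _ _).1 (h1 a), fun a b hab h => h2 a b hab
        ((F_nm hX H _ _ _).2 h), fun a => (ih' (z a)).symm.trans (h3 a)⟩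
    · rintro ⟨z, h1, h2, h3⟩
      exact ⟨fun a => X.nm (z a), fun a => (F_nm hX H _ _ _).2 (h1 a), fun a b hab h => h2 a b hab
        ((F_nm hX H _ _ _).1 h), fun a => (ih' (z a)).trans (h3 a)⟩

end Run7.h520.BU
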