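import Pool.Agent.Run7.h520.BU.MAIN
import Pool.Agent.Run7.h520.BU.EQV
import Pool.Agent.Run7.h520.BU.CARD
import Pool.Agent.Run7.h520.BU.LIFT
import Pool.Agent.Run7.h520.BU.AX
import Pool.Agent.Run7.h696.BU.ASY
import Pool.Agent.Run7.h255.BU.BAS
import Pool.Agent.Run7.h255.BU.STEP
import Pool.Agent.Run7.h68.BU.DIST
import Pool.Agent.Run7.h651.BU.EQ
import Pool.Agent.Run7.h651.BU.TOP
import Pool.Agent.Run7.h160.BU.FMP
import Pool.Agent.Run7.h270.BU.FORTH
import Pool.Agent.Run7.h270.BU.TRA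

/-! The answer. -/

set_option autoImplicit false

namespace Run7.h520.BU

theorem answer : Answer :=
  main ax card Run7.h255.BU.bas lift Run7.h160.BU.fmp Run7.h651.BU.TOP.top Run7.h255.BU.step
    Run7.h651.BU.EQ.eq nok Run7.h68.BU.dist Run7.h270.BU.tra Run7.h270.BU.forth asy eqv

end Run7.h520.BU
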