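import Pool.Agent.Run7.h520.BU.I

/-! Piece MAIN. -/

set_option autoImplicit false

namespace Run7.h520.BU
open FirstOrder FirstOrder.Language

theorem main : S_MAIN := by
  intro hAX hCARD hBAS hLIFT hFMP hTOP hSTEP hEQ hNOK hDIST hTRA hFORTH hASY hEQV
  obtain ⟨Ax0, hAx, hmod⟩ := hAX
  obtain ⟨hcard, hrel, hX0, hne⟩ := hCARD
  have heq := hEQ hBAS hLIFT hTOP hFMP hSTEP
  let i0 : LB.Structure Pt0 := X0.str
  have hne2 : ∀ c, Nonempty (Pt c) := fun c => ⟨pa c⟩
  set T : LB.Theory := LB.completeTheory Pt0 with hT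
  -- every frame is a model of `T`
  have hmT : ∀ (N : Type) (X : Fr N), X.Ok → @Theory.Model LB N X.str T := by
    intro N X hX
    let := X.str
    refine ⟨fun φ hφ => ?_⟩
    have h1 : @Sentence.Realize LB Pt0 X0.str φ := hφ
    exact (heq Pt0 N X0 X hX0 hX φ).1 h1
  have hAx0 : Pt0 ⊨ Ax0 := (hmod Pt0 X0.str).2 ⟨X0, hX0, rfl⟩
  refine ⟨LB, T, hrel, hcard, completeTheory.isComplete LB Pt0, ⟨Ax0, hAx, ?_⟩, 1, ?_⟩
  · intro φ
    rw [Theory.models_sentence_iff, Theory.models_sentence_iff]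
    constructor
    · intro h M
      have h1 : M ⊨ Ax0 := by
        refine ⟨fun ψ hψ => ?_⟩
        have h2 : ψ ∈ T := hAx0.realize_of_mem ψ hψ
        exact M.is_model.realize_of_mem ψ h2
      exact h (Theory.ModelType.of Ax0 M)
    · intro h M
      obtain ⟨X, hX, hs⟩ := (hmod M M.struc).1 M.is_model
      have h1 : @Theory.Model LB M M.struc T := by
        rw [hs]
        exact hmT M X hX
      exact h (@Theory.ModelType.of LB T M M.struc h1 M.nonempty')
  · let c : ℕ → Bool := fun _ => true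
    have key : ∀ c : ℕ → Bool, ∃ p : T.CompleteType (Fin 1), ∀ φ : LB.Formula (Fin 1),
        Formula.equivSentence φ ∈ p ↔
          @Formula.Realize LB (Pt c) (XN c).str (Fin 1) φ (fun _ => pa c) := by
      intro c
      let := (XN c).str
      have := hne2 c
      have := hmT (Pt c) (XN c) (hNOK c)
      exact ⟨T.typeOf (fun _ => pa c), fun φ => Theory.CompleteType.formula_mem_typeOf⟩
    choose P hP using key
    refine ⟨P c, fun n => ?_⟩
    rintro ⟨S, hS, hSp⟩
    let c' : ℕ → Bool := Function.update c (n + 1) (!c (n + 1))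
    obtain ⟨χ, hχ⟩ := hDIST
    have hsub : ∀ ψ ∈ S, ψ ∈ P c' := by
      intro ψ hψ
      have h1 : ((P c : LB[[Fin 1]].Theory)) ⊨ᵇ ψ :=
        (hSp ψ).1 (Theory.models_sentence_of_mem hψ)
      have h2 : ψ ∈ P c := (P c).isMaximal.mem_of_models h1
      obtain ⟨φ, rfl⟩ := (Formula.equivSentence (L := LB) (α := Fin 1)).surjective ψ
      have h3 := (hP c φ).1 h2
      have h4 : Lv false n φ := by
        have := hEQV LB false n 1 _ (hS _ hψ)
        rwa [Equiv.symm_apply_apply] at this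
      exact (hP c' φ).2 ((hASY hTRA hFORTH c (n + 1) n (Nat.lt_succ_self n) false φ h4).1 h3)
    have h5 : Formula.equivSentence (χ (n + 1)) ∈ P c :=
      (hP c _).2 ((hχ c (n + 1)).2 rfl)
    have h6 : S ⊨ᵇ (Formula.equivSentence (χ (n + 1)) : LB[[Fin 1]].Sentence) :=
      (hSp _).2 (Theory.models_sentence_of_mem h5)
    have h7 : (P c' : LB[[Fin 1]].Theory) ⊨ᵇ
        (Formula.equivSentence (χ (n + 1)) : LB[[Fin 1]].Sentence) :=
      Theory.models_of_models_theory (fun ψ hψ => Theory.models_sentence_of_mem (hsub ψ hψ)) h6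
    have h8 := (P c').isMaximal.mem_of_models h7
    have h9 := (hχ c' (n + 1)).1 ((hP c' _).1 h8)
    simp [c', c] at h9

end Run7.h520.BU
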